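import Mathlib

/-! The counterexample on 14 vertices and its blow-ups. -/

set_option autoImplicit false

namespace Pool.Agent.Lib.MP_ae2185_co

open SimpleGraph

/-- The 22 edges of the counterexample. -/
def edges : List (ℕ × ℕ) :=
  [(0, 2), (0, 3), (1, 4), (1, 5), (2, 8), (2, 10), (3, 7), (3, 12), (4, 9), (4, 13), (5, 6),
   (5, 11), (6, 9), (6, 10), (6, 11), (7, 9), (7, 12), (8, 10), (8, 13), (9, 13), (11, 12),
   (11, 13)]

/-- The counterexample graph on 14 vertices. -/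
def W : SimpleGraph (Fin 14) where
  Adj u v := (edges.contains (u.val, v.val) || edges.contains (v.val, u.val)) = true
  symm := ⟨fun u v h => by rw [Bool.or_comm]; exact h⟩
  loopless := ⟨by decide⟩

instance : DecidableRel W.Adj := fun u v =>
  inferInstanceAs (Decidable
    ((edges.contains (u.val, v.val) || edges.contains (v.val, u.val)) = true))

set_option synthInstance.maxSize 100000 in
theorem ub (s : Finset (Fin 14)) (hs : W.IsIndepSet s) :
    s.card ≤ 5 ∧ (0 ∉ s → 1 ∉ s → s.card ≤ 4) := by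
  have hcard : s.card = ∑ i : Fin 14, if i ∈ s then 1 else 0 := by simp
  have h : ∀ u v : Fin 14, W.Adj u v → ¬ (u ∈ s ∧ v ∈ s) := by
    rintro u v huv ⟨hu, hv⟩
    exact hs hu hv huv.ne huv
  have e1 := h 0 2 (by decide)
  have e2 := h 0 3 (by decide)
  have e3 := h 1 4 (by decide)
  have e4 := h 1 5 (by decide)
  have e5 := h 2 8 (by decide)
  have e6 := h 2 10 (by decide)
  have e7 := h 3 7 (by decide)
  have e8 := h 3 12 (by decide)
  have e9 := h 4 9 (by decide)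
  have e10 := h 4 13 (by decide)
  have e11 := h 5 6 (by decide)
  have e12 := h 5 11 (by decide)
  have e13 := h 6 9 (by decide)
  have e14 := h 6 10 (by decide)
  have e15 := h 6 11 (by decide)
  have e16 := h 7 9 (by decide)
  have e17 := h 7 12 (by decide)
  have e18 := h 8 10 (by decide)
  have e19 := h 8 13 (by decide)
  have e20 := h 9 13 (by decide)
  have e21 := h 11 12 (by decide)
  have e22 := h 11 13 (by decide)
  have key : ∀ b0 b1 b2 b3 b4 b5 b6 b7 b8 b9 b10 b11 b12 b13 : Bool,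
      ¬ (b0 ∧ b2) → ¬ (b0 ∧ b3) → ¬ (b1 ∧ b4) → ¬ (b1 ∧ b5) → ¬ (b2 ∧ b8) → ¬ (b2 ∧ b10) →
      ¬ (b3 ∧ b7) → ¬ (b3 ∧ b12) → ¬ (b4 ∧ b9) → ¬ (b4 ∧ b13) → ¬ (b5 ∧ b6) → ¬ (b5 ∧ b11) →
      ¬ (b6 ∧ b9) → ¬ (b6 ∧ b10) → ¬ (b6 ∧ b11) → ¬ (b7 ∧ b9) → ¬ (b7 ∧ b12) → ¬ (b8 ∧ b10) →
      ¬ (b8 ∧ b13) → ¬ (b9 ∧ b13) → ¬ (b11 ∧ b12) → ¬ (b11 ∧ b13) →
      (b0.toNat + b1.toNat + b2.toNat + b3.toNat + b4.toNat + b5.toNat + b6.toNat + b7.toNat
        + b8.toNat + b9.toNat + b10.toNat + b11.toNat + b12.toNat + b13.toNat ≤ 5) ∧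
      (¬ b0 → ¬ b1 →
        b0.toNat + b1.toNat + b2.toNat + b3.toNat + b4.toNat + b5.toNat + b6.toNat + b7.toNat
        + b8.toNat + b9.toNat + b10.toNat + b11.toNat + b12.toNat + b13.toNat ≤ 4) := by
    decide +kernel
  have hb : ∀ i : Fin 14, (if i ∈ s then 1 else 0) = (decide (i ∈ s)).toNat := by
    intro i
    by_cases hi : i ∈ s <;> simp [hi]
  have k := key (decide (0 ∈ s)) (decide (1 ∈ s)) (decide (2 ∈ s)) (decide (3 ∈ s))
    (decide (4 ∈ s)) (decide (5 ∈ s)) (decide (6 ∈ s)) (decide (7 ∈ s)) (decide (8 ∈ s))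
    (decide (9 ∈ s)) (decide (10 ∈ s)) (decide (11 ∈ s)) (decide (12 ∈ s)) (decide (13 ∈ s))
  simp only [decide_eq_true_eq] at k
  have k' := k e1 e2 e3 e4 e5 e6 e7 e8 e9 e10 e11 e12 e13 e14 e15 e16 e17 e18 e19 e20 e21 e22
  have hsum : s.card = (decide (0 ∈ s)).toNat + (decide (1 ∈ s)).toNat + (decide (2 ∈ s)).toNat
      + (decide (3 ∈ s)).toNat + (decide (4 ∈ s)).toNat + (decide (5 ∈ s)).toNat
      + (decide (6 ∈ s)).toNat + (decide (7 ∈ s)).toNat + (decide (8 ∈ s)).toNat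
      + (decide (9 ∈ s)).toNat + (decide (10 ∈ s)).toNat + (decide (11 ∈ s)).toNat
      + (decide (12 ∈ s)).toNat + (decide (13 ∈ s)).toNat := by
    rw [hcard]
    simp only [hb, Fin.sum_univ_succ, Fin.sum_univ_zero]
    simp only [← add_assoc, add_zero]
    rfl
  rw [hsum]
  exact k'

/-- For each edge, six vertices spanning only that edge. -/
def wit : List (Finset (Fin 14)) :=
  [{0, 1, 2, 6, 7, 13}, {0, 1, 3, 8, 9, 11}, {0, 1, 4, 6, 7, 8}, {0, 1, 5, 7, 10, 13},
   {1, 2, 3, 8, 9, 11}, {1, 2, 3, 9, 10, 11}, {1, 2, 3, 6, 7, 13}, {1, 2, 3, 6, 12, 13},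
   {0, 4, 5, 8, 9, 12}, {0, 4, 5, 7, 10, 13}, {0, 4, 5, 6, 7, 8}, {0, 4, 5, 7, 8, 11},
   {0, 1, 6, 8, 9, 12}, {0, 1, 6, 7, 10, 13}, {0, 1, 6, 7, 8, 11}, {0, 1, 7, 8, 9, 11},
   {0, 1, 6, 7, 8, 12}, {0, 1, 7, 8, 10, 11}, {0, 1, 6, 7, 8, 13}, {0, 1, 9, 10, 12, 13},
   {0, 1, 8, 9, 11, 12}, {0, 1, 7, 10, 11, 13}]

theorem wit6 : ∀ u v : Fin 14, W.Adj u v → ∃ s ∈ wit, s.card = 6 ∧
    ∀ a ∈ s, ∀ b ∈ s, W.Adj a b → (a = u ∧ b = v) ∨ (a = v ∧ b = u) := by
  decide +kernel

theorem wit5 : ∀ u : Fin 14, ∃ t ∈ wit, ∃ c ∈ t, u ∈ t.erase c ∧ (t.erase c).card = 5 ∧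
    ∀ a ∈ t.erase c, ∀ b ∈ t.erase c, ¬ W.Adj a b := by
  decide +kernel

theorem nbr : ∀ u : Fin 14, ∃ b c, W.Adj u b ∧ W.Adj u c ∧ 2 ≤ b.val ∧ b ≠ c := by
  decide +kernel

/-- Vertices of the blow-up: all vertices but `0` and `1` get `k + 1` copies. -/
abbrev BV (k : ℕ) : Type := {p : Fin 14 × Fin (k + 1) // p.1.val < 2 → p.2 = 0}

variable {k : ℕ}

/-- The first copy. -/
def up (a : Fin 14) : BV k := ⟨(a, 0), fun _ => rfl⟩

/-- The blow-up: copies of one vertex form a clique. -/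
def B (k : ℕ) : SimpleGraph (BV k) where
  Adj p q := p ≠ q ∧ (p.1.1 = q.1.1 ∨ W.Adj p.1.1 q.1.1)
  symm := ⟨fun _ _ h => ⟨h.1.symm, h.2.imp Eq.symm fun e => e.symm⟩⟩
  loopless := ⟨fun _ h => h.1 rfl⟩

theorem B_adj {p q : BV k} (h : W.Adj p.1.1 q.1.1) : (B k).Adj p q :=
  ⟨fun e => h.ne (congrArg (fun r : BV k => r.1.1) e), Or.inr h⟩

theorem eq_up {p : BV k} {a : Fin 14} (ha : a.val < 2) (h : p.1.1 = a) : p = up a :=
  Subtype.ext (Prod.ext h (p.2 (h ▸ ha)))

theorem ubB (s : Finset (BV k)) (hs : (B k).IsIndepSet s) :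
    s.card ≤ 5 ∧ (up 0 ∉ s → up 1 ∉ s → s.card ≤ 4) := by
  have inj : Set.InjOn (fun p : BV k => p.1.1) s := fun p hp q hq e =>
    by_contra fun n => hs hp hq n ⟨n, Or.inl e⟩
  have ind : W.IsIndepSet (s.image fun p : BV k => p.1.1) := by
    intro a ha b hb _ hab
    obtain ⟨p, hp, rfl⟩ := Finset.mem_image.1 ha
    obtain ⟨q, hq, rfl⟩ := Finset.mem_image.1 hb
    exact hs hp hq (B_adj hab).ne (B_adj hab)
  have h := ub _ ind
  rw [Finset.card_image_of_injOn inj] at h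
  refine ⟨h.1, fun h0 h1 => h.2 (fun m => ?_) fun m => ?_⟩
  · obtain ⟨p, hp, e⟩ := Finset.mem_image.1 m
    exact h0 (eq_up (by decide) e ▸ hp)
  · obtain ⟨p, hp, e⟩ := Finset.mem_image.1 m
    exact h1 (eq_up (by decide) e ▸ hp)

theorem critB (p q : BV k) (h : (B k).Adj p q) : ∃ s : Finset (BV k), s.card = 6 ∧
    ∀ a ∈ s, ∀ b ∈ s, (B k).Adj a b → (a = p ∧ b = q) ∨ (a = q ∧ b = p) := by
  let f : Fin 14 → BV k := fun a => if a = p.1.1 then p else if a = q.1.1 then q else up a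
  have hf : ∀ a, (f a).1.1 = a := fun a => by
    simp only [f]
    split_ifs with h1 h2
    exacts [h1.symm, h2.symm, rfl]
  have fi : Function.Injective f := fun a b e => by rw [← hf a, e, hf b]
  have fp : f p.1.1 = p := if_pos rfl
  have fa : ∀ a b, (B k).Adj (f a) (f b) → W.Adj a b := fun a b e => by
    have := e.2
    rw [hf, hf] at this
    exact this.resolve_left fun n => e.1 (congrArg f n)
  by_cases e : p.1.1 = q.1.1
  · obtain ⟨t, -, c, -, h1, h2, h3⟩ := wit5 p.1.1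
    have hq : ∀ a, (f a).1.1 = q.1.1 → f a = p := fun a n => by
      rw [hf, ← e] at n
      rw [n, fp]
    have hc : ∀ a ∈ t.erase c, (B k).Adj q (f a) → f a = p := fun a ha n =>
      n.2.elim (fun n => hq a n.symm) fun n => absurd n (by rw [hf, ← e]; exact h3 _ h1 a ha)
    refine ⟨insert q ((t.erase c).image f), ?_, fun a ha b hb hab => ?_⟩
    · rw [Finset.card_insert_of_notMem, Finset.card_image_of_injective _ fi, h2]
      intro m
      obtain ⟨a, -, n⟩ := Finset.mem_image.1 m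
      exact h.1 ((hq a (by rw [n])).symm.trans n)
    · rcases Finset.mem_insert.1 ha with rfl | ha <;> rcases Finset.mem_insert.1 hb with rfl | hb
      · exact absurd rfl hab.1
      · obtain ⟨b, kb, rfl⟩ := Finset.mem_image.1 hb
        exact Or.inr ⟨rfl, hc b kb hab⟩
      · obtain ⟨a, ka, rfl⟩ := Finset.mem_image.1 ha
        exact Or.inl ⟨hc a ka hab.symm, rfl⟩
      · obtain ⟨a, ka, rfl⟩ := Finset.mem_image.1 ha
        obtain ⟨b, kb, rfl⟩ := Finset.mem_image.1 hb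
        exact absurd (fa a b hab) (h3 a ka b kb)
  · obtain ⟨t, -, h1, h2⟩ := wit6 _ _ (h.2.resolve_left e)
    have fq : f q.1.1 = q := (if_neg (Ne.symm e)).trans (if_pos rfl)
    refine ⟨t.image f, by rw [Finset.card_image_of_injective _ fi, h1], fun a ha b hb hab => ?_⟩
    obtain ⟨a, ka, rfl⟩ := Finset.mem_image.1 ha
    obtain ⟨b, kb, rfl⟩ := Finset.mem_image.1 hb
    rcases h2 a ka b kb (fa a b hab) with ⟨rfl, rfl⟩ | ⟨rfl, rfl⟩
    exacts [Or.inl ⟨fp, fq⟩, Or.inr ⟨fq, fp⟩]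

theorem indepNum_B : (B k).indepNum = 5 := by
  apply le_antisymm
  · obtain ⟨s, hs⟩ := (B k).exists_isNIndepSet_indepNum
    rw [← hs.card_eq]
    exact (ubB s hs.isIndepSet).1
  · obtain ⟨t, -, c, -, -, h2, h3⟩ := wit5 0
    have inj : Function.Injective (up : Fin 14 → BV k) := fun a b e =>
      congrArg (fun r : BV k => r.1.1) e
    have h : (B k).IsIndepSet ((t.erase c).image up : Finset (BV k)) := by
      intro a ha b hb n hab
      obtain ⟨a, ha', rfl⟩ := Finset.mem_image.1 ha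
      obtain ⟨b, hb', rfl⟩ := Finset.mem_image.1 hb
      exact hab.2.elim (fun e => n (congrArg up e)) (h3 a ha' b hb')
    have := h.card_le_indepNum
    rwa [Finset.card_image_of_injective _ inj, h2] at this

theorem crit_B : ∀ e ∈ (B k).edgeSet, (B k).indepNum < ((B k).deleteEdges {e}).indepNum := by
  intro e he
  induction e using Sym2.ind with
  | h u v =>
    obtain ⟨s, hs6, hs⟩ := critB u v he
    have hind : ((B k).deleteEdges {s(u, v)}).IsIndepSet (s : Set (BV k)) := by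
      intro a ha b hb _ hab
      rw [deleteEdges_adj] at hab
      apply hab.2
      rw [Set.mem_singleton_iff, Sym2.eq_iff]
      exact hs a ha b hb hab.1
    have := hind.card_le_indepNum
    rw [indepNum_B]
    omega

theorem conn_B (S : Finset (BV k)) (hS : S.card ≤ k) :
    ((B k).induce (S : Set (BV k))ᶜ).Connected := by
  have hr : ∀ a : Fin 14, 2 ≤ a.val → ∃ p : ((S : Set (BV k))ᶜ : Set (BV k)), p.1.1.1 = a := by
    intro a ha
    let g : Fin (k + 1) → BV k := fun i => ⟨(a, i), fun n => absurd ha (not_le.2 n)⟩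
    by_contra n
    have : (Finset.univ.image g) ⊆ S := fun p hp => by
      obtain ⟨i, -, rfl⟩ := Finset.mem_image.1 hp
      exact by_contra fun m => n ⟨⟨g i, m⟩, rfl⟩
    have h2 := Finset.card_le_card this
    rw [Finset.card_image_of_injective _ fun i j e => congrArg (fun r : BV k => r.1.2) e] at h2
    simp at h2
    omega
  obtain ⟨o, ho⟩ := hr 2 le_rfl
  let R : Fin 14 → Prop := fun a => ∀ p : ((S : Set (BV k))ᶜ : Set (BV k)), p.1.1.1 = a →
    ((B k).induce (S : Set (BV k))ᶜ).Reachable o p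
  have r : ∀ a b : Fin 14, 2 ≤ a.val → W.Adj a b → R a → R b := fun a b ha h h' p hp => by
    obtain ⟨q, hq⟩ := hr a ha
    have e : W.Adj q.1.1.1 p.1.1.1 := by rw [hq, hp]; exact h
    exact (h' q hq).trans (Adj.reachable (B_adj e))
  have r2 : R 2 := fun p hp => by
    by_cases e : o = p
    · exact e ▸ Reachable.refl _
    · exact Adj.reachable ⟨fun n => e (Subtype.ext n), Or.inl (ho.trans hp.symm)⟩
  have r0 := r 2 0 (by decide) (by decide) r2
  have r8 := r 2 8 (by decide) (by decide) r2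
  have r10 := r 2 10 (by decide) (by decide) r2
  have r13 := r 8 13 (by decide) (by decide) r8
  have r6 := r 10 6 (by decide) (by decide) r10
  have r4 := r 13 4 (by decide) (by decide) r13
  have r9 := r 13 9 (by decide) (by decide) r13
  have r11 := r 13 11 (by decide) (by decide) r13
  have r5 := r 6 5 (by decide) (by decide) r6
  have r7 := r 9 7 (by decide) (by decide) r9
  have r3 := r 7 3 (by decide) (by decide) r7
  have r12 := r 11 12 (by decide) (by decide) r11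
  have r1 := r 4 1 (by decide) (by decide) r4
  have hall : ∀ a : Fin 14, R a := by
    intro a
    fin_cases a
    exacts [r0, r1, r2, r3, r4, r5, r6, r7, r8, r9, r10, r11, r12, r13]
  have : Nonempty ((S : Set (BV k))ᶜ : Set (BV k)) := ⟨o⟩
  exact ⟨fun a b => (hall _ a rfl).symm.trans (hall _ b rfl)⟩

theorem deg_B (v : BV k) : k + 2 ≤ ((B k).neighborSet v).ncard := by
  obtain ⟨b, c, h1, h2, hb, h⟩ := nbr v.1.1
  let g : Fin (k + 1) → BV k := fun i => ⟨(b, i), fun n => absurd hb (not_le.2 n)⟩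
  have hs : ((insert (up c) (Finset.univ.image g) : Finset (BV k)) : Set (BV k)) ⊆
      (B k).neighborSet v := by
    intro x hx
    rcases Finset.mem_insert.1 hx with rfl | hx
    · exact B_adj h2
    · obtain ⟨i, -, rfl⟩ := Finset.mem_image.1 hx
      exact B_adj h1
  have h3 := Set.ncard_le_ncard hs (Set.toFinite _)
  rw [Set.ncard_coe_finset, Finset.card_insert_of_notMem, Finset.card_image_of_injective _
    fun i j e => congrArg (fun r : BV k => r.1.2) e] at h3
  · rw [Finset.card_univ, Fintype.card_fin] at h3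
    exact h3
  · intro m
    obtain ⟨i, -, e⟩ := Finset.mem_image.1 m
    exact h (congrArg (fun r : BV k => r.1.1) e)

end Pool.Agent.Lib.MP_ae2185_co
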