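import Mathlib

set_option autoImplicit false

namespace Pool.Agent.Lib.MP_ae2185_co.OldWade

open SimpleGraph

/-- The 22 edges of the counterexample. -/
private def edges : List (ℕ × ℕ) :=
  [(0, 2), (0, 3), (1, 4), (1, 5), (2, 8), (2, 10), (3, 7), (3, 12), (4, 9), (4, 13), (5, 6),
   (5, 11), (6, 9), (6, 10), (6, 11), (7, 9), (7, 12), (8, 10), (8, 13), (9, 13), (11, 12),
   (11, 13)]

/-- The counterexample graph on 14 vertices. -/
private def W : SimpleGraph (Fin 14) where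
  Adj u v := (edges.contains (u.val, v.val) || edges.contains (v.val, u.val)) = true
  symm := ⟨fun u v h => by rw [Bool.or_comm]; exact h⟩
  loopless := ⟨by decide⟩

private instance : DecidableRel W.Adj := fun u v =>
  inferInstanceAs (Decidable
    ((edges.contains (u.val, v.val) || edges.contains (v.val, u.val)) = true))

set_option synthInstance.maxSize 100000 in
private theorem ub (s : Finset (Fin 14)) (hs : W.IsIndepSet s) :
    s.card ≤ 5 ∧ (0 ∉ s → 1 ∉ s → s.card ≤ 4) := by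
  have hcard : s.card = ∑ i : Fin 14, if i ∈ s then 1 else 0 := by simp
  have h : ∀ u v : Fin 14, W.Adj u v → ¬ (u ∈ s ∧ v ∈ s) := by
    rintro u v huv ⟨hu, hv⟩
    exact hs hu hv huv.ne huv
  have e1 := h 0 2 (by decide)
  have e2 := h 0 3 (by decide)
  have e3 := h 1 4 (by decide)
  have e4 := h 1 5 (by decide)
  have e5 := h 2 8 (by decide)
  have e6 := h 2 10 (by decide)
  have e7 := h 3 7 (by decide)
  have e8 := h 3 12 (by decide)
  have e9 := h 4 9 (by decide)
  have e10 := h 4 13 (by decide)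
  have e11 := h 5 6 (by decide)
  have e12 := h 5 11 (by decide)
  have e13 := h 6 9 (by decide)
  have e14 := h 6 10 (by decide)
  have e15 := h 6 11 (by decide)
  have e16 := h 7 9 (by decide)
  have e17 := h 7 12 (by decide)
  have e18 := h 8 10 (by decide)
  have e19 := h 8 13 (by decide)
  have e20 := h 9 13 (by decide)
  have e21 := h 11 12 (by decide)
  have e22 := h 11 13 (by decide)
  have key : ∀ b0 b1 b2 b3 b4 b5 b6 b7 b8 b9 b10 b11 b12 b13 : Bool,
      ¬ (b0 ∧ b2) → ¬ (b0 ∧ b3) → ¬ (b1 ∧ b4) → ¬ (b1 ∧ b5) → ¬ (b2 ∧ b8) → ¬ (b2 ∧ b10) →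
      ¬ (b3 ∧ b7) → ¬ (b3 ∧ b12) → ¬ (b4 ∧ b9) → ¬ (b4 ∧ b13) → ¬ (b5 ∧ b6) → ¬ (b5 ∧ b11) →
      ¬ (b6 ∧ b9) → ¬ (b6 ∧ b10) → ¬ (b6 ∧ b11) → ¬ (b7 ∧ b9) → ¬ (b7 ∧ b12) → ¬ (b8 ∧ b10) →
      ¬ (b8 ∧ b13) → ¬ (b9 ∧ b13) → ¬ (b11 ∧ b12) → ¬ (b11 ∧ b13) →
      (b0.toNat + b1.toNat + b2.toNat + b3.toNat + b4.toNat + b5.toNat + b6.toNat + b7.toNat
        + b8.toNat + b9.toNat + b10.toNat + b11.toNat + b12.toNat + b13.toNat ≤ 5) ∧
      (¬ b0 → ¬ b1 →
        b0.toNat + b1.toNat + b2.toNat + b3.toNat + b4.toNat + b5.toNat + b6.toNat + b7.toNat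
        + b8.toNat + b9.toNat + b10.toNat + b11.toNat + b12.toNat + b13.toNat ≤ 4) := by
    decide +kernel
  have hb : ∀ i : Fin 14, (if i ∈ s then 1 else 0) = (decide (i ∈ s)).toNat := by
    intro i
    by_cases hi : i ∈ s <;> simp [hi]
  have k := key (decide (0 ∈ s)) (decide (1 ∈ s)) (decide (2 ∈ s)) (decide (3 ∈ s))
    (decide (4 ∈ s)) (decide (5 ∈ s)) (decide (6 ∈ s)) (decide (7 ∈ s)) (decide (8 ∈ s))
    (decide (9 ∈ s)) (decide (10 ∈ s)) (decide (11 ∈ s)) (decide (12 ∈ s)) (decide (13 ∈ s))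
  simp only [decide_eq_true_eq] at k
  have k' := k e1 e2 e3 e4 e5 e6 e7 e8 e9 e10 e11 e12 e13 e14 e15 e16 e17 e18 e19 e20 e21 e22
  have hsum : s.card = (decide (0 ∈ s)).toNat + (decide (1 ∈ s)).toNat + (decide (2 ∈ s)).toNat
      + (decide (3 ∈ s)).toNat + (decide (4 ∈ s)).toNat + (decide (5 ∈ s)).toNat
      + (decide (6 ∈ s)).toNat + (decide (7 ∈ s)).toNat + (decide (8 ∈ s)).toNat
      + (decide (9 ∈ s)).toNat + (decide (10 ∈ s)).toNat + (decide (11 ∈ s)).toNat
      + (decide (12 ∈ s)).toNat + (decide (13 ∈ s)).toNat := by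
    rw [hcard]
    simp only [hb, Fin.sum_univ_succ, Fin.sum_univ_zero]
    simp only [← add_assoc, add_zero]
    rfl
  rw [hsum]
  exact k'

private theorem indepNum_W : W.indepNum = 5 := by
  apply le_antisymm
  · obtain ⟨s, hs⟩ := W.exists_isNIndepSet_indepNum
    rw [← hs.card_eq]
    exact (ub s hs.isIndepSet).1
  · have h : W.IsIndepSet (({0, 1, 6, 7, 8} : Finset (Fin 14)) : Set (Fin 14)) := by
      decide +kernel
    exact h.card_le_indepNum

/-- For each edge, six vertices spanning only that edge. -/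
private def wit : List (Finset (Fin 14)) :=
  [{0, 1, 2, 6, 7, 13}, {0, 1, 3, 8, 9, 11}, {0, 1, 4, 6, 7, 8}, {0, 1, 5, 7, 10, 13},
   {1, 2, 3, 8, 9, 11}, {1, 2, 3, 9, 10, 11}, {1, 2, 3, 6, 7, 13}, {1, 2, 3, 6, 12, 13},
   {0, 4, 5, 8, 9, 12}, {0, 4, 5, 7, 10, 13}, {0, 4, 5, 6, 7, 8}, {0, 4, 5, 7, 8, 11},
   {0, 1, 6, 8, 9, 12}, {0, 1, 6, 7, 10, 13}, {0, 1, 6, 7, 8, 11}, {0, 1, 7, 8, 9, 11},
   {0, 1, 6, 7, 8, 12}, {0, 1, 7, 8, 10, 11}, {0, 1, 6, 7, 8, 13}, {0, 1, 9, 10, 12, 13},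
   {0, 1, 8, 9, 11, 12}, {0, 1, 7, 10, 11, 13}]

private theorem crit : ∀ e ∈ W.edgeSet, W.indepNum < (W.deleteEdges {e}).indepNum := by
  intro e he
  induction e using Sym2.ind with
  | h u v =>
    have key : ∀ u v : Fin 14, W.Adj u v → ∃ s ∈ wit, s.card = 6 ∧
        ∀ a ∈ s, ∀ b ∈ s, W.Adj a b → (a = u ∧ b = v) ∨ (a = v ∧ b = u) := by
      decide +kernel
    obtain ⟨s, -, hs6, hs⟩ := key u v he
    have hind : (W.deleteEdges {s(u, v)}).IsIndepSet (s : Set (Fin 14)) := by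
      intro a ha b hb _ hab
      rw [deleteEdges_adj] at hab
      apply hab.2
      rw [Set.mem_singleton_iff, Sym2.eq_iff]
      exact hs a ha b hb hab.1
    have := hind.card_le_indepNum
    rw [indepNum_W]
    omega

/-- Wade's conjecture is false: there is a finite connected alpha-critical graph without isolated
vertices and two vertices `x`, `y` of degree at least two such that every maximum independent set
contains `x` or `y`. -/
theorem result :
    ∃ (n : ℕ) (G : SimpleGraph (Fin n)),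
      G.Connected ∧
      (∀ e ∈ G.edgeSet, G.indepNum < (G.deleteEdges {e}).indepNum) ∧
      (∀ v, ∃ w, G.Adj v w) ∧
      ∃ x y : Fin n, 2 ≤ (G.neighborSet x).ncard ∧ 2 ≤ (G.neighborSet y).ncard ∧
        ∀ s : Finset (Fin n), G.IsNIndepSet G.indepNum s → x ∈ s ∨ y ∈ s := by
  refine ⟨14, W, ?_, crit, by decide +kernel, 0, 1, ?_, ?_, ?_⟩
  · have r : ∀ {a b : Fin 14}, W.Adj a b → W.Reachable 0 a → W.Reachable 0 b :=
      fun h h' => h'.trans h.reachable
    have r0 : W.Reachable 0 0 := Reachable.refl _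
    have r2 := r (show W.Adj 0 2 by decide) r0
    have r3 := r (show W.Adj 0 3 by decide) r0
    have r8 := r (show W.Adj 2 8 by decide) r2
    have r10 := r (show W.Adj 2 10 by decide) r2
    have r7 := r (show W.Adj 3 7 by decide) r3
    have r12 := r (show W.Adj 3 12 by decide) r3
    have r13 := r (show W.Adj 8 13 by decide) r8
    have r6 := r (show W.Adj 10 6 by decide) r10
    have r9 := r (show W.Adj 7 9 by decide) r7
    have r11 := r (show W.Adj 12 11 by decide) r12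
    have r4 := r (show W.Adj 9 4 by decide) r9
    have r5 := r (show W.Adj 6 5 by decide) r6
    have r1 := r (show W.Adj 4 1 by decide) r4
    have hall : ∀ a : Fin 14, W.Reachable 0 a := by
      intro a
      fin_cases a
      exacts [r0, r1, r2, r3, r4, r5, r6, r7, r8, r9, r10, r11, r12, r13]
    exact ⟨fun a b => (hall a).symm.trans (hall b)⟩
  · have : ({2, 3} : Set (Fin 14)) ⊆ W.neighborSet 0 := by
      rintro a (rfl | rfl) <;> (rw [mem_neighborSet]; decide)
    have h2 := Set.ncard_le_ncard this (Set.toFinite _)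
    rwa [Set.ncard_pair (by decide)] at h2
  · have : ({4, 5} : Set (Fin 14)) ⊆ W.neighborSet 1 := by
      rintro a (rfl | rfl) <;> (rw [mem_neighborSet]; decide)
    have h2 := Set.ncard_le_ncard this (Set.toFinite _)
    rwa [Set.ncard_pair (by decide)] at h2
  · intro s hs
    by_contra hno
    push Not at hno
    have h1 := (ub s hs.isIndepSet).2 hno.1 hno.2
    have h2 := hs.card_eq
    rw [indepNum_W] at h2
    omega

end Pool.Agent.Lib.MP_ae2185_co.OldWade
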